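import Pool.Agent.E8helper95.NP.C

set_option autoImplicit false

namespace Pool.Agent.E8helper95.NP

theorem t_B0 : S_B0 := by
  intro k p m a₁ a hs ha
  obtain ⟨h, g, hT, hM⟩ := two_of_sol hs
  obtain ⟨e1, hpos, hhodd, g2, geq, half⟩ := hT
  have hp3 := hs.hp3
  have hp3' : (3 : ℤ) ≤ p := by exact_mod_cast hp3
  have hodd : Odd p := hs.hp.odd_of_ne_two (by omega)
  have hodd' : Odd (p : ℤ) := by exact_mod_cast hodd
  obtain ⟨n, rfl⟩ : ∃ n, m = n + 2 := ⟨m - 2, by have := hs.hm; omega⟩
  have hR1 := rep_pos p (n + 1) (by omega)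
  have hSR : rep p (n + 2) = rep p (n + 1) + (p : ℤ) ^ (n + 1) := rep_succ p (n + 1)
  have hpar := rep_parity p (n + 2) hodd
  have hM2 : 2 * (2 : ℤ) ^ a₁ ≤ 2 ^ (k + 1) := by
    rw [← pow_succ']
    exact pow_le_pow_right₀ (by norm_num) (by have := hs.ha₁; omega)
  rw [hM] at hM2
  rw [pow_zero, mul_one] at e1
  set S := rep p (n + 2) with hSdef
  set x : ℤ := 2 ^ a with hx
  have hx1 : 1 ≤ x := one_le_pow₀ (by norm_num)
  have k1 : h * (4 * S - 3 - p) ≤ p * p + 3 * p + 4 := by nlinarith
  rcases Nat.eq_zero_or_pos n with h0 | h0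
  · subst h0
    have hS : S = p + 1 := by
      rw [hSdef]
      unfold rep
      simp [Finset.sum_range_succ]
      ring
    -- parity
    have hSe : Even S := by
      rw [hS]
      exact hodd'.add_odd odd_one
    have hae : a = 0 := by
      by_contra hne
      have h1 : Even x := by rw [hx, even_iff_two_dvd]; exact dvd_pow_self 2 hne
      have h2 : Even ((2 : ℤ) ^ a₁) := by
        rw [even_iff_two_dvd]; exact dvd_pow_self 2 (by omega)
      have h3 : Even (S * h) := hSe.mul_right h
      rw [e1] at h3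
      have h4 : Odd (x + 1 + 2 ^ a₁) := (h1.add_odd odd_one).add_even h2
      exact (Int.not_even_iff_odd.2 h4) h3
    rw [hae, pow_zero] at hx
    rw [hx] at e1 hM hM2
    have hh1 : h = 1 := by
      rw [hS] at e1
      nlinarith
    rw [hh1] at hM
    have h5 : (p : ℤ) = 2 ^ k := by
      rw [pow_succ] at hM
      linarith
    have h6 : p = 2 ^ k := by exact_mod_cast h5
    have hk : k ≠ 0 := by
      rintro rfl
      simp at h6
      omega
    rw [h6] at hodd
    have h7 : Even (2 ^ k) := by rw [even_iff_two_dvd]; exact dvd_pow_self 2 hk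
    exact (Nat.not_even_iff_odd.2 hodd) h7
  · have hpP : (p : ℤ) * p ≤ (p : ℤ) ^ (n + 1) := by
      rw [pow_succ]
      have : (p : ℤ) ≤ (p : ℤ) ^ n := le_self_pow₀ (by linarith) (by omega)
      nlinarith
    have hR : (p : ℤ) + 1 ≤ rep p (n + 1) := by
      obtain ⟨l, rfl⟩ := Nat.exists_eq_add_of_le' h0
      have e2 : rep p (l + 1 + 1) = rep p (l + 1) + (p : ℤ) ^ (l + 1) := rep_succ p (l + 1)
      have e3 := rep_pos p (l + 1) (by omega)
      have e4 : (p : ℤ) ≤ (p : ℤ) ^ (l + 1) := le_self_pow₀ (by linarith) (by omega)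
      linarith
    have hS : p * p + p + 1 ≤ S := by linarith
    nlinarith

end Pool.Agent.E8helper95.NP
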