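import Pool.Agent.E8helper95.NP.Red

set_option autoImplicit false

namespace Pool.Agent.E8helper95.NP

/-- the common facts of case II (`d₂ = 2 ^ a * p ^ m`), with the cofactor `h` -/
structure Two (p m a₁ b a : ℕ) (h g : ℤ) : Prop where
  eq : rep p m * h = 2 ^ a + 1 + 2 ^ a₁ * (p : ℤ) ^ b
  hpos : 1 ≤ h
  hodd : Odd h
  g2 : 2 ≤ g
  geq : 2 ^ a * g = h + p
  half : 2 * 2 ^ a ≤ h + p

theorem rep_pos (p m : ℕ) (hm : 1 ≤ m) : 1 ≤ rep p m := by
  obtain ⟨n, rfl⟩ := Nat.exists_eq_add_of_le' hm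
  rw [rep_succ]
  have h1 : 0 ≤ rep p n := Finset.sum_nonneg fun i _ => by positivity
  rcases Nat.eq_zero_or_pos p with h0 | h0
  · subst h0
    cases n with
    | zero => simp [rep]
    | succ n =>
      have : 1 ≤ rep 0 (n + 1) := by
        unfold rep
        rw [Finset.sum_range_succ']
        simp
      have h2 : (0 : ℤ) ≤ ((0 : ℕ) : ℤ) ^ (n + 1) := by positivity
      linarith
  · have : (1 : ℤ) ≤ (p : ℤ) ^ n := one_le_pow₀ (by exact_mod_cast h0)
    linarith

theorem rep_ge (p m : ℕ) : (p : ℤ) ^ m ≤ rep p (m + 1) := by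
  rw [rep_succ]
  have h1 : 0 ≤ rep p m := Finset.sum_nonneg fun i _ => by positivity
  linarith

theorem two_of_sol {k p m a₁ b a : ℕ} (hs : Sol k p m a₁ b a m) :
    ∃ h g : ℤ, Two p m a₁ b a h g ∧ (2 : ℤ) ^ (k + 1) = 2 ^ a * (p - 1) + h + p := by
  have hp3 := hs.hp3
  have hp3' : (3 : ℤ) ≤ p := by exact_mod_cast hp3
  have hodd : Odd p := hs.hp.odd_of_ne_two (by omega)
  have hodd' : Odd (p : ℤ) := by exact_mod_cast hodd
  have hS := rep_pos p m (by have := hs.hm; omega)
  have hpS := rep_mul p m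
  set S := rep p m with hSdef
  have hEQ := hs.eq
  rw [← hSdef] at hEQ
  set h : ℤ := 2 ^ (k + 1) - p - (p - 1) * 2 ^ a with hh
  have e1 : S * h = 2 ^ a + 1 + 2 ^ a₁ * (p : ℤ) ^ b := by
    rw [hh]
    linear_combination hEQ - 2 ^ a * hpS
  have hpos : 1 ≤ h := by
    have h1 : 0 < S * h := by rw [e1]; positivity
    have h2 : 0 < h := (mul_pos_iff_of_pos_left (by linarith)).1 h1
    linarith
  have hk : k + 1 = a + (k + 1 - a) := by have := hs.ha₂; omega
  set i := k + 1 - a with hi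
  have hi1 : 1 ≤ i := by have := hs.ha₂; omega
  have hMi : (2 : ℤ) ^ (k + 1) = 2 ^ a * 2 ^ i := by rw [hk, pow_add]
  set g : ℤ := 2 ^ i - (p - 1) with hg
  have geq : 2 ^ a * g = h + p := by rw [hg, hh, hMi]; ring
  have heven1 : Even ((2 : ℤ) ^ i) := by
    rw [even_iff_two_dvd]; exact dvd_pow_self 2 (by omega)
  have heven2 : Even ((p : ℤ) - 1) := hodd'.sub_odd odd_one
  have heg : Even g := heven1.sub heven2
  have hgpos : 0 < g := by
    have h1 : 0 < 2 ^ a * g := by rw [geq]; linarith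
    exact (mul_pos_iff_of_pos_left (by positivity)).1 h1
  have g2 : 2 ≤ g := by
    obtain ⟨r, hr⟩ := heg
    omega
  have hhodd : Odd h := by
    rw [hh]
    have e2 : Even ((2 : ℤ) ^ (k + 1)) := by rw [pow_succ]; exact even_two.mul_left _
    exact (e2.sub_odd hodd').sub_even (heven2.mul_right _)
  refine ⟨h, g, ⟨e1, hpos, hhodd, g2, geq, ?_⟩, ?_⟩
  · rw [← geq]
    have : (0 : ℤ) < 2 ^ a := by positivity
    nlinarith
  · rw [hh]; ring

/-- parity of the repunit -/
theorem rep_parity (p m : ℕ) (hp : Odd p) : Odd (rep p m) ↔ Odd m := by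
  have hp' : Odd (p : ℤ) := by exact_mod_cast hp
  induction m with
  | zero => simp [rep]
  | succ m ih =>
    have key : Odd (rep p m + (p : ℤ) ^ m) ↔ (Odd (rep p m) ↔ Even ((p : ℤ) ^ m)) := Int.odd_add
    have h1 : ¬ Even ((p : ℤ) ^ m) := Int.not_even_iff_odd.2 hp'.pow
    rw [rep_succ, key, Nat.odd_add_one]
    tauto

theorem t_C : S_C := by
  intro k p m b a hs hb
  obtain ⟨h, g, hT, -⟩ := two_of_sol hs
  obtain ⟨e1, hpos, hhodd, g2, geq, half⟩ := hT
  have hp3 := hs.hp3
  have hp3' : (3 : ℤ) ≤ p := by exact_mod_cast hp3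
  have hodd : Odd p := hs.hp.odd_of_ne_two (by omega)
  have hodd' : Odd (p : ℤ) := by exact_mod_cast hodd
  obtain ⟨n, rfl⟩ : ∃ n, m = n + 2 := ⟨m - 2, by have := hs.hm; omega⟩
  have hR1 := rep_pos p (n + 1) (by omega)
  have hSR : rep p (n + 2) = rep p (n + 1) + (p : ℤ) ^ (n + 1) := rep_succ p (n + 1)
  have hpR := rep_mul p (n + 1)
  have hpS := rep_mul p (n + 2)
  have hpar := rep_parity p (n + 2) hodd
  set S := rep p (n + 2) with hSdef
  set R := rep p (n + 1) with hRdef
  set P : ℤ := (p : ℤ) ^ (n + 1) with hP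
  have hP1 : 1 ≤ P := one_le_pow₀ (by linarith)
  have hb1 : (1 : ℤ) ≤ (p : ℤ) ^ b := one_le_pow₀ (by linarith)
  have hbP : (p : ℤ) ^ b ≤ P := pow_le_pow_right₀ (by linarith) (by omega)
  set x : ℤ := 2 ^ a with hx
  have hx1 : 1 ≤ x := one_le_pow₀ (by norm_num)
  -- parity: `m` is odd
  have hmodd : Odd (n + 2) := by
    rw [← hpar]
    have h1 : Odd (S * h) := by
      rw [e1]
      have h2 : x + 1 + x * (p : ℤ) ^ b = x * (1 + (p : ℤ) ^ b) + 1 := by ring
      rw [h2]
      have h3 : Even (1 + (p : ℤ) ^ b) := odd_one.add_odd hodd'.pow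
      exact (h3.mul_left x).add_odd odd_one
    exact (Int.odd_mul.1 h1).1
  have hn1 : 1 ≤ n := by
    rcases Nat.eq_zero_or_pos n with h0 | h0
    · subst h0
      exact absurd hmodd (by decide)
    · exact h0
  have hpP : (p : ℤ) * p ≤ P := by
    rw [hP, pow_succ]
    have : (p : ℤ) ≤ (p : ℤ) ^ n := le_self_pow₀ (by linarith) (by omega)
    nlinarith
  have hxp : x ≤ p - 1 := by
    have h1 : x * (g * S - 1 - (p : ℤ) ^ b) = p * S + 1 := by
      have : h = x * g - p := by linarith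
      rw [this] at e1
      linear_combination e1
    have h2 : S ≤ g * S - 1 - (p : ℤ) ^ b := by nlinarith
    have h3 : x * S ≤ p * S + 1 := by nlinarith
    have h4 : x ≤ p := by
      by_contra hcon
      have : (p : ℤ) + 1 ≤ x := by omega
      nlinarith
    rcases Nat.eq_zero_or_pos a with h0 | h0
    · rw [hx, h0]; linarith
    · have h5 : Even x := by rw [hx, even_iff_two_dvd]; exact dvd_pow_self 2 (by omega)
      obtain ⟨r, hr⟩ := h5
      obtain ⟨s, hs'⟩ := hodd'
      omega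
  rcases Nat.lt_or_ge b (n + 1) with hlt | hge
  · -- `b ≤ m - 2`
    have hbP' : (p : ℤ) ^ b * p ≤ P := by
      rw [hP, ← pow_succ]
      exact pow_le_pow_right₀ (by linarith) (by omega)
    nlinarith
  · have hbe : b = n + 1 := by omega
    rw [hbe, ← hP] at e1
    have e3 : P * (h - x) = x + 1 - h * R := by rw [hSR] at e1; linear_combination e1
    have hR : p + 1 ≤ R := by nlinarith
    rcases lt_trichotomy h x with hlt | heq | hgt
    · have h1 : P ≤ h * R - x - 1 := by nlinarith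
      have h2 : (p - 1) * (h * R) = h * (P - 1) := by rw [← hpR]; ring
      nlinarith
    · rw [← heq] at e3
      have : h * R = h + 1 := by linarith
      nlinarith
    · nlinarith

end Pool.Agent.E8helper95.NP
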