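import Pool.Agent.E8helper95.NP.Stm

set_option autoImplicit false

namespace Pool.Agent.E8helper95.NP

theorem two_near_family (k p : ℕ) (hp : p.Prime) (h : p + 1 = 2 ^ (k + 1)) :
    TwoNear (2 ^ k * p ^ 3) := by
  have hp2 : p ≠ 2 := by
    rintro rfl
    have : Even (2 ^ (k + 1)) := ⟨2 ^ k, by ring⟩
    rw [← h] at this
    exact absurd this (by decide)
  have hpos : 0 < 2 ^ k * p ^ 3 := by have := hp.pos; positivity
  have hcop : Nat.Coprime (2 ^ k) (p ^ 3) := by
    apply Nat.Coprime.pow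
    exact (Nat.coprime_primes Nat.prime_two hp).2 (Ne.symm hp2)
  refine ⟨hpos, p, ?_, p ^ 2, ?_, ?_, ?_⟩
  · rw [Nat.mem_divisors]
    exact ⟨⟨2 ^ k * p ^ 2, by ring⟩, hpos.ne'⟩
  · rw [Nat.mem_divisors]
    exact ⟨⟨2 ^ k * p, by ring⟩, hpos.ne'⟩
  · have := hp.two_le
    intro h1
    nlinarith
  · have h1 : ∑ d ∈ (2 ^ k * p ^ 3).divisors, d = ArithmeticFunction.sigma 1 (2 ^ k * p ^ 3) := by
      rw [ArithmeticFunction.sigma_one_apply]
    rw [h1, ArithmeticFunction.isMultiplicative_sigma.map_mul_of_coprime hcop]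
    have h2 : ArithmeticFunction.sigma 1 (2 ^ k) = p := by
      rw [ArithmeticFunction.sigma_one_apply, Nat.sum_divisors_prime_pow Nat.prime_two]
      have := Nat.geomSum_eq (m := 2) le_rfl (k + 1)
      rw [this, ← h]
      simp
    have h3 : ArithmeticFunction.sigma 1 (p ^ 3) = 1 + p + p ^ 2 + p ^ 3 := by
      rw [ArithmeticFunction.sigma_one_apply, Nat.sum_divisors_prime_pow hp]
      simp [Finset.sum_range_succ]
    rw [h2, h3]
    have h4 : 2 * (2 ^ k * p ^ 3) = (p + 1) * p ^ 3 := by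
      rw [h]; ring
    rw [h4]
    ring

theorem t_EX : S_EX := by
  refine ⟨?_, ?_, ?_, two_near_family⟩
  · refine ⟨by norm_num, 1, by decide, 2, by decide, by decide, by decide⟩
  · refine ⟨by norm_num, 1, by decide, 18, by decide, by decide, by decide⟩
  · refine ⟨by norm_num, 40, by decide, 25, by decide, by decide, ?_⟩
    decide +kernel

end Pool.Agent.E8helper95.NP
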