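import Pool.Agent.E8helper95.NP.Ex

set_option autoImplicit false

namespace Pool.Agent.E8helper95.NP

theorem Sol.swap {k p m a₁ b₁ a₂ b₂ : ℕ} (h : Sol k p m a₁ b₁ a₂ b₂) :
    Sol k p m a₂ b₂ a₁ b₁ where
  hp := h.hp
  hp3 := h.hp3
  hm := h.hm
  ha₁ := h.ha₂
  ha₂ := h.ha₁
  hb₁ := h.hb₂
  hb₂ := h.hb₁
  eq := by rw [h.eq]; ring

/-- the classification of the solutions of the master equation -/
theorem classify (hI1 : S_I1) (hI0 : S_I0) (hEQ : S_EQ) (hA : S_A) (hB0 : S_B0)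
    (hB1 : S_B1) (hC : S_C) {k p m a₁ b₁ a₂ b₂ : ℕ} (h : Sol k p m a₁ b₁ a₂ b₂)
    (hne : a₁ ≠ a₂ ∨ b₁ ≠ b₂) :
    (k = 1 ∧ p = 3 ∧ m = 2) ∨ (k = 2 ∧ p = 3 ∧ m = 2) ∨ (k = 3 ∧ p = 5 ∧ m = 2) ∨
      (m = 3 ∧ p + 1 = 2 ^ (k + 1)) := by
  wlog hb : b₁ ≤ b₂ generalizing a₁ b₁ a₂ b₂
  · exact this h.swap (by rcases hne with h1 | h1; exacts [Or.inl h1.symm, Or.inr h1.symm])
      (by omega)
  rcases lt_or_eq_of_le h.hb₂ with h2 | h2
  · rcases Nat.eq_zero_or_pos b₁ with h0 | h0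
    · subst h0
      exact Or.inl (hI0 k p m a₁ a₂ b₂ h hne h2)
    · exact Or.inr (Or.inr (Or.inr (hI1 k p m a₁ b₁ a₂ b₂ h hne h0 hb h2)))
  · subst h2
    rcases lt_or_eq_of_le hb with h3 | h3
    · rcases lt_trichotomy a₁ a₂ with h4 | h4 | h4
      · exact Or.inr (Or.inl (hA k p b₂ a₁ b₁ a₂ h h3 h4))
      · subst h4
        exact (hC k p b₂ b₁ a₁ h h3).elim
      · rcases Nat.eq_zero_or_pos b₁ with h0 | h0
        · subst h0
          exact (hB0 k p b₂ a₁ a₂ h h4).elim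
        · exact Or.inr (Or.inr (Or.inl (hB1 k p b₂ a₁ b₁ a₂ h h0 h3 h4)))
    · subst h3
      rcases lt_or_gt_of_ne (hne.resolve_right (by simp)) with h4 | h4
      · exact (hEQ k p b₁ a₁ a₂ h h4).elim
      · exact (hEQ k p b₁ a₂ a₁ h.swap h4).elim

theorem final (hR : S_RED) (hV : S_V) (hI1 : S_I1) (hI0 : S_I0) (hEQ : S_EQ) (hA : S_A)
    (hB0 : S_B0) (hB1 : S_B1) (hC : S_C) : Fin := by
  obtain ⟨e18, e36, e200, efam⟩ := t_EX
  have hcl : ∀ k p m : ℕ, p.Prime → 2 ≤ m → (TwoNear (2 ^ k * p ^ m) ↔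
    (k = 1 ∧ p = 3 ∧ m = 2) ∨ (k = 2 ∧ p = 3 ∧ m = 2) ∨ (k = 3 ∧ p = 5 ∧ m = 2) ∨
      (m = 3 ∧ p + 1 = 2 ^ (k + 1))) := by
    intro k p m hp hm
    constructor
    · intro h
      obtain ⟨a₁, b₁, a₂, b₂, hs, hne⟩ := hR k p m hp hm h
      exact classify hI1 hI0 hEQ hA hB0 hB1 hC hs hne
    · rintro (⟨rfl, rfl, rfl⟩ | ⟨rfl, rfl, rfl⟩ | ⟨rfl, rfl, rfl⟩ | ⟨rfl, h⟩)
      · exact e18
      · exact e36
      · exact e200
      · exact efam k p hp h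
  refine ⟨hcl, ?_, ?_⟩
  · intro hfin
    -- the map `p ↦ (p + 1) / 2 * p ^ 3` is injective
    let f : ℕ → ℕ := fun p => (p + 1) / 2 * p ^ 3
    have hinj : Set.InjOn f {p : ℕ | p.Prime ∧ ∃ j : ℕ, p + 1 = 2 ^ j} := by
      have hmono : StrictMonoOn f {p : ℕ | p.Prime ∧ ∃ j : ℕ, p + 1 = 2 ^ j} := by
        intro x hx y hy hxy
        have h1 : (x + 1) / 2 ≤ (y + 1) / 2 := Nat.div_le_div_right (by omega)
        have h2 : x ^ 3 < y ^ 3 := Nat.pow_lt_pow_left hxy (by norm_num)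
        have h3 : 0 < (y + 1) / 2 := by
          have := hy.1.two_le
          omega
        calc f x = (x + 1) / 2 * x ^ 3 := rfl
          _ ≤ (y + 1) / 2 * x ^ 3 := Nat.mul_le_mul_right _ h1
          _ < (y + 1) / 2 * y ^ 3 := Nat.mul_lt_mul_of_pos_left h2 h3
      exact hmono.injOn
    refine Set.Finite.of_finite_image (f := f) (hfin.subset ?_) hinj
    rintro _ ⟨p, ⟨hp, j, hj⟩, rfl⟩
    have hj1 : j ≠ 0 := by
      rintro rfl
      have := hp.two_le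
      omega
    obtain ⟨k, rfl⟩ := Nat.exists_eq_succ_of_ne_zero hj1
    have hdiv : (p + 1) / 2 = 2 ^ k := by
      rw [hj, Nat.succ_eq_add_one, pow_succ]
      simp
    refine ⟨?_, k, p, 3, hp, by norm_num, ?_⟩
    · show TwoNear ((p + 1) / 2 * p ^ 3)
      rw [hdiv]
      exact efam k p hp hj
    · show (p + 1) / 2 * p ^ 3 = _
      rw [hdiv]
  · intro hfin
    have h1 : ((fun p : ℕ => (p + 1) / 2 * p ^ 3) '' {p : ℕ | p.Prime ∧ ∃ j : ℕ, p + 1 = 2 ^ j} ∪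
        {18, 36, 200}).Finite := (hfin.image _).union (by simp)
    refine h1.subset ?_
    rintro n ⟨hn, k, p, m, hp, hm, rfl⟩
    rcases (hcl k p m hp hm).1 hn with ⟨rfl, rfl, rfl⟩ | ⟨rfl, rfl, rfl⟩ | ⟨rfl, rfl, rfl⟩ | ⟨rfl, h⟩
    · right; norm_num
    · right; norm_num
    · right; norm_num
    · left
      refine ⟨p, ⟨hp, k + 1, h⟩, ?_⟩
      show (p + 1) / 2 * p ^ 3 = _
      rw [h, pow_succ]
      simp

end Pool.Agent.E8helper95.NP
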