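import Pool.Agent.E8helper95.NP.Stm

set_option autoImplicit false

namespace Pool.Agent.E8helper95.NP

theorem rep_mul (p m : ℕ) : ((p : ℤ) - 1) * rep p m = (p : ℤ) ^ m - 1 := by
  unfold rep
  rw [mul_comm]
  exact geom_sum_mul (p : ℤ) m

theorem rep_succ (p m : ℕ) : rep p (m + 1) = rep p m + (p : ℤ) ^ m := by
  unfold rep
  rw [Finset.sum_range_succ]

theorem sigma_two_pow (k : ℕ) : ((∑ d ∈ (2 ^ k).divisors, d : ℕ) : ℤ) = 2 ^ (k + 1) - 1 := by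
  rw [Nat.sum_divisors_prime_pow Nat.prime_two]
  push_cast
  have := geom_sum_mul (2 : ℤ) (k + 1)
  linarith

theorem sigma_pow (p m : ℕ) (hp : p.Prime) :
    ((∑ d ∈ (p ^ m).divisors, d : ℕ) : ℤ) = rep p (m + 1) := by
  rw [Nat.sum_divisors_prime_pow hp]
  unfold rep
  push_cast
  rfl

theorem t_RED : S_RED := by
  intro k p m hp hm h
  obtain ⟨hpos, d₁, hd₁, d₂, hd₂, hne, hs⟩ := h
  have hp2 : p ≠ 2 := by
    rintro rfl
    have h1 : (2 : ℕ) ^ k * 2 ^ m = 2 ^ (k + m) := by rw [pow_add]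
    rw [h1] at hs
    have h2 := sigma_two_pow (k + m)
    rw [hs] at h2
    push_cast at h2
    rw [pow_succ] at h2
    have h3 : (0 : ℤ) ≤ d₁ := by positivity
    have h4 : (0 : ℤ) ≤ d₂ := by positivity
    linarith
  have hp3 : 3 ≤ p := by
    have := hp.two_le
    omega
  have hcop : Nat.Coprime (2 ^ k) (p ^ m) := by
    apply Nat.Coprime.pow
    exact (Nat.coprime_primes Nat.prime_two hp).2 (Ne.symm hp2)
  have hform : ∀ d ∈ (2 ^ k * p ^ m).divisors, ∃ a b, a ≤ k ∧ b ≤ m ∧ d = 2 ^ a * p ^ b := by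
    intro d hd
    obtain ⟨x, y, hx, hy, rfl⟩ := Nat.dvd_mul.1 (Nat.dvd_of_mem_divisors hd)
    obtain ⟨a, ha, rfl⟩ := (Nat.dvd_prime_pow Nat.prime_two).1 hx
    obtain ⟨b, hb, rfl⟩ := (Nat.dvd_prime_pow hp).1 hy
    exact ⟨a, b, ha, hb, rfl⟩
  obtain ⟨a₁, b₁, ha₁, hb₁, rfl⟩ := hform d₁ hd₁
  obtain ⟨a₂, b₂, ha₂, hb₂, rfl⟩ := hform d₂ hd₂
  refine ⟨a₁, b₁, a₂, b₂, ⟨hp, hp3, hm, ha₁, ha₂, hb₁, hb₂, ?_⟩, ?_⟩
  · have h1 : (∑ d ∈ (2 ^ k * p ^ m).divisors, d : ℕ) =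
        (∑ d ∈ (2 ^ k).divisors, d) * ∑ d ∈ (p ^ m).divisors, d := by
      rw [← ArithmeticFunction.sigma_one_apply, ← ArithmeticFunction.sigma_one_apply,
        ← ArithmeticFunction.sigma_one_apply,
        ArithmeticFunction.isMultiplicative_sigma.map_mul_of_coprime hcop]
    rw [h1] at hs
    have h2 : (((∑ d ∈ (2 ^ k).divisors, d) * ∑ d ∈ (p ^ m).divisors, d : ℕ) : ℤ) =
        ((2 * (2 ^ k * p ^ m) + 2 ^ a₁ * p ^ b₁ + 2 ^ a₂ * p ^ b₂ : ℕ) : ℤ) := by rw [hs]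
    rw [Nat.cast_mul, sigma_two_pow, sigma_pow p m hp, rep_succ] at h2
    push_cast at h2
    have h3 := rep_mul p m
    have h4 : (2 : ℤ) ^ (k + 1) = 2 * 2 ^ k := by rw [pow_succ]; ring
    rw [h4] at h2 ⊢
    linear_combination h2 - h3
  · by_contra hcon
    push Not at hcon
    obtain ⟨rfl, rfl⟩ := hcon
    exact hne rfl

end Pool.Agent.E8helper95.NP
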