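import Mathlib

/-!
# Project NP (helper95), MP_d695ac_nt: 2-near perfect numbers of the form `2 ^ k * p ^ m`, `m ≥ 2`

Theorem: they are exactly `18`, `36`, `200` and the numbers `2 ^ k * p ^ 3` with `p = 2 ^ (k+1) - 1` a
Mersenne prime. Hence Q1 (finitely many) holds if and only if there are finitely many Mersenne primes.

Master equation (with `S = 1 + p + ... + p ^ (m-1)`, `M = 2 ^ (k+1)`): `(M - p) S = 1 + d₁ + d₂`.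
-/

set_option autoImplicit false

namespace Pool.Agent.E8helper95.NP

/-- `n` is 2-near perfect: `σ(n) = 2 n + d₁ + d₂` with distinct divisors `d₁, d₂` of `n` -/
def TwoNear (n : ℕ) : Prop :=
  0 < n ∧ ∃ d₁ ∈ n.divisors, ∃ d₂ ∈ n.divisors, d₁ ≠ d₂ ∧ ∑ d ∈ n.divisors, d = 2 * n + d₁ + d₂

/-- the repunit `1 + p + ... + p ^ (m - 1)` -/
def rep (p m : ℕ) : ℤ := ∑ i ∈ Finset.range m, (p : ℤ) ^ i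

/-- solutions of the master equation, `d₁ = 2 ^ a₁ * p ^ b₁`, `d₂ = 2 ^ a₂ * p ^ b₂` -/
structure Sol (k p m a₁ b₁ a₂ b₂ : ℕ) : Prop where
  hp : p.Prime
  hp3 : 3 ≤ p
  hm : 2 ≤ m
  ha₁ : a₁ ≤ k
  ha₂ : a₂ ≤ k
  hb₁ : b₁ ≤ m
  hb₂ : b₂ ≤ m
  eq : ((2 : ℤ) ^ (k + 1) - p) * rep p m = 1 + 2 ^ a₁ * (p : ℤ) ^ b₁ + 2 ^ a₂ * (p : ℤ) ^ b₂

/-- reduction to the master equation -/
def S_RED : Prop := ∀ k p m : ℕ, p.Prime → 2 ≤ m → TwoNear (2 ^ k * p ^ m) →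
  ∃ a₁ b₁ a₂ b₂ : ℕ, Sol k p m a₁ b₁ a₂ b₂ ∧ (a₁ ≠ a₂ ∨ b₁ ≠ b₂)

/-- the four families are 2-near perfect -/
def S_EX : Prop := TwoNear 18 ∧ TwoNear 36 ∧ TwoNear 200 ∧
  ∀ k p : ℕ, p.Prime → p + 1 = 2 ^ (k + 1) → TwoNear (2 ^ k * p ^ 3)

/-- the power of two dividing `σ(p ^ m)`, `m` odd -/
def S_V : Prop := ∀ p m a : ℕ, Odd p → Odd m → 3 ≤ p → ((2 : ℤ) ^ a ∣ rep p (m + 1)) →
  2 ^ (a + 1) ∣ (p + 1) * (m + 1)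

/-- case I, both exponents of `p` in `[1, m-1]` -/
def S_I1 : Prop := ∀ k p m a₁ b₁ a₂ b₂ : ℕ, Sol k p m a₁ b₁ a₂ b₂ → (a₁ ≠ a₂ ∨ b₁ ≠ b₂) →
  1 ≤ b₁ → b₁ ≤ b₂ → b₂ < m → m = 3 ∧ p + 1 = 2 ^ (k + 1)

/-- case I, one exponent of `p` is `0`, the other one at most `m-1` -/
def S_I0 : Prop := ∀ k p m a₁ a₂ b₂ : ℕ, Sol k p m a₁ 0 a₂ b₂ → (a₁ ≠ a₂ ∨ 0 ≠ b₂) →
  b₂ < m → k = 1 ∧ p = 3 ∧ m = 2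

/-- case II, `b₁ = b₂ = m` -/
def S_EQ : Prop := ∀ k p m a₁ a₂ : ℕ, Sol k p m a₁ m a₂ m → a₁ < a₂ → False

/-- case II, `b₁ < b₂ = m`, `a₁ < a₂` -/
def S_A : Prop := ∀ k p m a₁ b a : ℕ, Sol k p m a₁ b a m → b < m → a₁ < a → k = 2 ∧ p = 3 ∧ m = 2

/-- case II, `b₁ < b₂ = m`, `a₂ < a₁`, `b₁ = 0` -/
def S_B0 : Prop := ∀ k p m a₁ a : ℕ, Sol k p m a₁ 0 a m → a < a₁ → False

/-- case II, `0 < b₁ < b₂ = m`, `a₂ < a₁` -/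
def S_B1 : Prop := ∀ k p m a₁ b a : ℕ, Sol k p m a₁ b a m → 1 ≤ b → b < m → a < a₁ →
  k = 3 ∧ p = 5 ∧ m = 2

/-- case II, `b₁ < b₂ = m`, `a₁ = a₂` -/
def S_C : Prop := ∀ k p m b a : ℕ, Sol k p m a b a m → b < m → False

/-- the final theorem -/
def Fin : Prop :=
  (∀ k p m : ℕ, p.Prime → 2 ≤ m → (TwoNear (2 ^ k * p ^ m) ↔
    (k = 1 ∧ p = 3 ∧ m = 2) ∨ (k = 2 ∧ p = 3 ∧ m = 2) ∨ (k = 3 ∧ p = 5 ∧ m = 2) ∨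
      (m = 3 ∧ p + 1 = 2 ^ (k + 1)))) ∧
  ({n : ℕ | TwoNear n ∧ ∃ k p m : ℕ, p.Prime ∧ 2 ≤ m ∧ n = 2 ^ k * p ^ m}.Finite ↔
    {p : ℕ | p.Prime ∧ ∃ j : ℕ, p + 1 = 2 ^ j}.Finite)

end Pool.Agent.E8helper95.NP
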