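import Pool.Agent.E8helper95.NP.Red

set_option autoImplicit false

namespace Pool.Agent.E8helper95.NP

theorem t_V : S_V := by
  intro p m a hp hm hp3 hd
  have hx : ¬ (2 : ℤ) ∣ (p : ℤ) := by
    intro h
    rw [← even_iff_two_dvd, Int.even_coe_nat] at h
    exact (Nat.not_even_iff_odd.2 hp) h
  have hxy : (2 : ℤ) ∣ (p : ℤ) - 1 := by
    rw [← even_iff_two_dvd]
    have : Odd (p : ℤ) := by exact_mod_cast hp
    exact this.sub_odd odd_one
  have hn : Even (m + 1) := by
    rw [Nat.even_add_one]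
    exact Nat.not_even_iff_odd.2 hm
  have h := Int.two_pow_sub_pow (x := (p : ℤ)) (y := 1) (n := m + 1) hxy hx hn
  rw [one_pow] at h
  have h1 := rep_mul p (m + 1)
  rw [← h1] at h
  have hp1 : ((p : ℤ) - 1) ≠ 0 := by
    have : (3 : ℤ) ≤ p := by exact_mod_cast hp3
    linarith
  have h2prime : Prime (2 : ℤ) := Int.prime_two
  rw [emultiplicity_mul h2prime] at h
  have hfin : FiniteMultiplicity (2 : ℤ) ((p : ℤ) - 1) := by
    apply Int.finiteMultiplicity_iff.2
    exact ⟨by decide, hp1⟩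
  have hne : emultiplicity (2 : ℤ) ((p : ℤ) - 1) ≠ ⊤ := by
    rw [Ne, emultiplicity_eq_top]
    exact fun h => h hfin
  -- cancel
  have h3 : emultiplicity (2 : ℤ) (rep p (m + 1)) + 1 =
      emultiplicity (2 : ℤ) ((p : ℤ) + 1) + emultiplicity (2 : ℤ) ((m + 1 : ℕ) : ℤ) := by
    have h4 : emultiplicity (2 : ℤ) ((p : ℤ) - 1) + (emultiplicity (2 : ℤ) (rep p (m + 1)) + 1) =
        emultiplicity (2 : ℤ) ((p : ℤ) - 1) +
          (emultiplicity (2 : ℤ) ((p : ℤ) + 1) + emultiplicity (2 : ℤ) ((m + 1 : ℕ) : ℤ)) := by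
      rw [← add_assoc, ← add_assoc, h]
      ring
    exact ENat.add_right_injective_of_ne_top hne h4
  have h5 : (a : ℕ∞) ≤ emultiplicity (2 : ℤ) (rep p (m + 1)) := le_emultiplicity_of_pow_dvd hd
  have h6 : ((a + 1 : ℕ) : ℕ∞) ≤ emultiplicity (2 : ℕ) ((p + 1) * (m + 1)) := by
    rw [emultiplicity_mul Nat.prime_two.prime]
    have h7 : emultiplicity (2 : ℕ) (p + 1) = emultiplicity (2 : ℤ) ((p : ℤ) + 1) := by
      have := Int.natCast_emultiplicity 2 (p + 1)
      push_cast at this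
      exact this.symm
    have h8 : emultiplicity (2 : ℕ) (m + 1) = emultiplicity (2 : ℤ) ((m + 1 : ℕ) : ℤ) := by
      have := Int.natCast_emultiplicity 2 (m + 1)
      exact this.symm
    rw [h7, h8, ← h3]
    push_cast
    gcongr
  exact pow_dvd_of_le_emultiplicity h6

end Pool.Agent.E8helper95.NP
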